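import Pool.Agent.Helper29.TP.Planar

/-!
Hypermaps of positive Euler characteristic: components and parity.
-/

set_option autoImplicit false

namespace Pool.Agent.Helper29.TP

open Equiv Equiv.Perm

universe u v

section

variable {W : Type u} {X : Type v}

open Classical in
/-- The cycles are the fixed points and the cycles of the cycle decomposition. -/
lemma card_cyc [Fintype W] (p : Perm W) :
    Nat.card (Cyc p) = Nat.card {w // p w = w} + p.cycleFactorsFinset.card := by
  let g : W → {w // p w = w} ⊕ {c // c ∈ p.cycleFactorsFinset} := fun w =>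
    if h : p w = w then Sum.inl ⟨w, h⟩ else Sum.inr ⟨cycleOf p w,
      cycleOf_mem_cycleFactorsFinset_iff.mpr (mem_support.mpr h)⟩
  have g1 : ∀ w (h : p w = w), g w = Sum.inl ⟨w, h⟩ := fun w h => dif_pos h
  have g2 : ∀ w (h : ¬ p w = w), g w = Sum.inr ⟨cycleOf p w,
      cycleOf_mem_cycleFactorsFinset_iff.mpr (mem_support.mpr h)⟩ := fun w h => dif_neg h
  have hg : ∀ w w', p.SameCycle w w' → g w = g w' := by
    intro w w' h
    by_cases hw : p w = w
    · have : w = w' := h.eq_of_left hw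
      rw [this]
    · have hw' : ¬ p w' = w' := fun h' => by
        have : w' = w := h.symm.eq_of_left h'
        exact hw (this ▸ h')
      rw [g2 w hw, g2 w' hw']
      congr 1
      exact Subtype.ext h.cycleOf_eq
  let G : Cyc p → {w // p w = w} ⊕ {c // c ∈ p.cycleFactorsFinset} := Quotient.lift g hg
  have hG : ∀ w, G (cyc p w) = g w := fun w => rfl
  have hbij : Function.Bijective G := by
    constructor
    · intro c c' h
      obtain ⟨w, rfl⟩ := cyc_surj p c
      obtain ⟨w', rfl⟩ := cyc_surj p c'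
      rw [hG, hG] at h
      rw [cyc_eq]
      by_cases hw : p w = w
      · by_cases hw' : p w' = w'
        · rw [g1 w hw, g1 w' hw'] at h
          have e := congrArg Subtype.val (Sum.inl.inj h)
          change w = w' at e
          rw [e]
        · rw [g1 w hw, g2 w' hw'] at h
          exact absurd h Sum.inl_ne_inr
      · by_cases hw' : p w' = w'
        · rw [g2 w hw, g1 w' hw'] at h
          exact absurd h Sum.inr_ne_inl
        · rw [g2 w hw, g2 w' hw'] at h
          have e := congrArg Subtype.val (Sum.inr.inj h)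
          exact (sameCycle_iff_cycleOf_eq_of_mem_support (mem_support.mpr hw)
            (mem_support.mpr hw')).mpr e
    · rintro (⟨w, hw⟩ | ⟨c, hc⟩)
      · exact ⟨cyc p w, by rw [hG, g1 w hw]⟩
      · obtain ⟨w, hw⟩ : c.support.Nonempty := by
          rw [Finset.nonempty_iff_ne_empty, Ne, support_eq_empty_iff]
          exact (mem_cycleFactorsFinset_iff.mp hc).1.ne_one
        have e := cycle_is_cycleOf hw hc
        have hw' : ¬ p w = w := fun h => by
          have := (mem_cycleFactorsFinset_iff.mp hc).2 w hw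
          rw [h] at this
          exact mem_support.mp hw this
        refine ⟨cyc p w, ?_⟩
        rw [hG, g2 w hw']
        congr 1
        exact Subtype.ext e.symm
  rw [Nat.card_eq_of_bijective G hbij, Nat.card_sum]
  congr 1
  rw [Nat.card_eq_fintype_card, Fintype.card_coe]

open Classical in
/-- The sign and the number of cycles. -/
lemma sign_cyc [Fintype W] (p : Perm W) :
    sign p = (-1) ^ (Nat.card W + Nat.card (Cyc p)) := by
  have h1 : Nat.card {w // p w = w} + p.support.card = Nat.card W := by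
    rw [Nat.card_eq_fintype_card, Nat.card_eq_fintype_card, Fintype.card_subtype]
    have e : p.support = Finset.univ.filter (fun w => ¬ p w = w) := by
      ext w
      simp
    rw [e, Finset.card_filter_add_card_filter_not, Finset.card_univ]
  have h2 : Multiset.card p.cycleType = p.cycleFactorsFinset.card := by
    rw [cycleType_def, Multiset.card_map]
    rfl
  rw [sign_of_cycleType, sum_cycleType, h2]
  rw [card_cyc p, ← h1]
  have e : Nat.card {w // p w = w} + p.support.card + (Nat.card {w // p w = w} +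
      p.cycleFactorsFinset.card) = 2 * Nat.card {w // p w = w} + (p.support.card +
      p.cycleFactorsFinset.card) := by ring
  rw [e, pow_add (-1) (2 * _), pow_mul, neg_one_sq, one_pow, one_mul]

/-- The Euler characteristic is even. -/
lemma euler_even [Finite W] (a b : Perm W) :
    Even (Nat.card W + (Nat.card (Cyc a) + Nat.card (Cyc b) + Nat.card (Cyc (a⁻¹ * b)))) := by
  classical
  have := Fintype.ofFinite W
  have h1 := sign_cyc a
  have h2 := sign_cyc b
  have h3 := sign_cyc (a⁻¹ * b)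
  rw [Perm.sign_mul, Perm.sign_inv, h1, h2, ← pow_add] at h3
  have h4 : ((-1 : ℤˣ)) ^ (Nat.card W + (Nat.card (Cyc a) + Nat.card (Cyc b) +
      Nat.card (Cyc (a⁻¹ * b)))) = 1 := by
    have e : ((-1 : ℤˣ)) ^ (Nat.card W + Nat.card (Cyc a) + (Nat.card W + Nat.card (Cyc b))) *
        (-1) ^ (Nat.card W + Nat.card (Cyc (a⁻¹ * b))) = 1 := by
      rw [h3, ← pow_add, ← two_mul, pow_mul, neg_one_sq, one_pow]
    rw [← pow_add] at e
    have e2 : Nat.card W + Nat.card (Cyc a) + (Nat.card W + Nat.card (Cyc b)) +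
        (Nat.card W + Nat.card (Cyc (a⁻¹ * b))) = 2 * Nat.card W + (Nat.card W +
        (Nat.card (Cyc a) + Nat.card (Cyc b) + Nat.card (Cyc (a⁻¹ * b)))) := by ring
    rw [e2, pow_add, pow_mul, neg_one_sq, one_pow, one_mul] at e
    exact e
  exact (neg_one_pow_eq_one_iff_even (by decide)).mp h4

/-- The restriction of a permutation to an invariant set. -/
abbrev res (p : Perm W) (c : W → Prop) (h : ∀ w, c (p w) ↔ c w) : Perm {w // c w} :=
  p.subtypePerm fun w => h w

lemma card_cyc_le [Finite W] (p : Perm W) (c : W → Prop) (h : ∀ w, c (p w) ↔ c w)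
    (h' : ∀ w, ¬ c (p w) ↔ ¬ c w) :
    Nat.card (Cyc p) ≤ Nat.card (Cyc (res p c h)) + Nat.card (Cyc (res p (fun w => ¬ c w) h')) := by
  classical
  rw [← Nat.card_sum]
  let f : Cyc (res p c h) ⊕ Cyc (res p (fun w => ¬ c w) h') → Cyc p := Sum.elim
    (Quotient.lift (fun w => cyc p w.1) fun w w' hw => (cyc_eq p).mpr (sameCycle_subtypePerm.mp hw))
    (Quotient.lift (fun w => cyc p w.1) fun w w' hw => (cyc_eq p).mpr (sameCycle_subtypePerm.mp hw))
  refine Nat.card_le_card_of_surjective f fun k => ?_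
  obtain ⟨w, rfl⟩ := cyc_surj p k
  by_cases hw : c w
  · exact ⟨Sum.inl (cyc _ ⟨w, hw⟩), rfl⟩
  · exact ⟨Sum.inr (cyc _ ⟨w, hw⟩), rfl⟩

lemma res_inv_mul (a b : Perm W) (c : W → Prop) (ha : ∀ w, c (a w) ↔ c w)
    (hb : ∀ w, c (b w) ↔ c w) (hab : ∀ w, c ((a⁻¹ * b) w) ↔ c w) :
    (res a c ha)⁻¹ * res b c hb = res (a⁻¹ * b) c hab := by
  ext w
  apply a.injective
  have e : (res a c ha) (((res a c ha)⁻¹ * res b c hb) w) = res b c hb w := by
    rw [Perm.mul_apply, ap_inv]
  have e' := congrArg Subtype.val e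
  change a (((res a c ha)⁻¹ * res b c hb) w).1 = b w.1 at e'
  rw [e']
  change b w.1 = a ((a⁻¹ * b) w.1)
  rw [Perm.mul_apply, ap_inv]

lemma inv_iff (a : Perm W) (c : W → Prop) (ha : ∀ w, c (a w) ↔ c w) (w : W) :
    c (a⁻¹ w) ↔ c w := by
  rw [← ha (a⁻¹ w), ap_inv]

/-- **Hypermaps of positive Euler characteristic.**  If the inequality
`s (a w) * (s w)⁻¹ ≤ t (b w) * (t w)⁻¹` holds for all elements of a hypermap with more cycles than
elements, then some component has equality everywhere. -/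
theorem euler_false_aux [LinearOrder X] (n : ℕ) : ∀ (W : Type u) [Finite W] (a b : Perm W),
    Nat.card W = n →
    Nat.card W < Nat.card (Cyc a) + Nat.card (Cyc b) + Nat.card (Cyc (a⁻¹ * b)) →
    ∀ (s t : W → X ≃o X), (∀ w x, s (a w) x ≤ t (b w) ((t w).symm (s w x))) →
    (∀ c : W → Prop, (∀ w, c (a w) ↔ c w) → (∀ w, c (b w) ↔ c w) → (∃ w, c w) →
      ∃ w x, c w ∧ s (a w) x < t (b w) ((t w).symm (s w x))) → False := by
  induction n using Nat.strong_induction_on with
  | _ n ih =>
    intro W _ a b hn hχ s t h hs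
    by_cases htr : Trans a b
    · have hW : Nonempty W := by
        by_contra hW
        rw [not_nonempty_iff] at hW
        have e1 : Nat.card (Cyc a) = 0 := by
          have : IsEmpty (Cyc a) := ⟨fun k => by
            obtain ⟨w, -⟩ := cyc_surj a k
            exact hW.elim w⟩
          exact Nat.card_of_isEmpty
        have e2 : Nat.card (Cyc b) = 0 := by
          have : IsEmpty (Cyc b) := ⟨fun k => by
            obtain ⟨w, -⟩ := cyc_surj b k
            exact hW.elim w⟩
          exact Nat.card_of_isEmpty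
        have e3 : Nat.card (Cyc (a⁻¹ * b)) = 0 := by
          have : IsEmpty (Cyc (a⁻¹ * b)) := ⟨fun k => by
            obtain ⟨w, -⟩ := cyc_surj _ k
            exact hW.elim w⟩
          exact Nat.card_of_isEmpty
        omega
      obtain ⟨w₀⟩ := hW
      obtain ⟨m, hm⟩ := euler_even a b
      obtain ⟨w, x, -, hx⟩ := hs (fun _ => True) (fun _ => Iff.rfl) (fun _ => Iff.rfl)
        ⟨w₀, trivial⟩
      rw [planar htr (by omega) s t h w x] at hx
      exact lt_irrefl _ hx
    · unfold Trans at htr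
      push Not at htr
      obtain ⟨c, ha, hb, w₁, w₂, h1, h2⟩ := htr
      have ha' : ∀ w, ¬ c (a w) ↔ ¬ c w := fun w => not_congr (ha w)
      have hb' : ∀ w, ¬ c (b w) ↔ ¬ c w := fun w => not_congr (hb w)
      have hab : ∀ w, c ((a⁻¹ * b) w) ↔ c w := fun w => by
        rw [Perm.mul_apply, inv_iff a c ha, hb]
      have hab' : ∀ w, ¬ c ((a⁻¹ * b) w) ↔ ¬ c w := fun w => not_congr (hab w)
      have k1 := card_cyc_le a c ha ha'
      have k2 := card_cyc_le b c hb hb'
      have k3 := card_cyc_le (a⁻¹ * b) c hab hab'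
      rw [← res_inv_mul a b c ha hb hab, ← res_inv_mul a b (fun w => ¬ c w) ha' hb' hab'] at k3
      have k4 : Nat.card W = Nat.card {w // c w} + Nat.card {w // ¬ c w} := by
        classical
        rw [← Nat.card_sum]
        exact (Nat.card_congr (Equiv.sumCompl c)).symm
      have p1 : 0 < Nat.card {w // c w} := by
        have : Nonempty {w // c w} := ⟨⟨w₁, h1⟩⟩
        exact Nat.card_pos
      have p2 : 0 < Nat.card {w // ¬ c w} := by
        have : Nonempty {w // ¬ c w} := ⟨⟨w₂, h2⟩⟩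
        exact Nat.card_pos
      rcases Nat.lt_or_ge (Nat.card {w // c w}) (Nat.card (Cyc (res a c ha)) +
        Nat.card (Cyc (res b c hb)) + Nat.card (Cyc ((res a c ha)⁻¹ * res b c hb))) with hl | hl
      · refine ih (Nat.card {w // c w}) (by omega) {w // c w} (res a c ha) (res b c hb) rfl hl
          (fun w => s w.1) (fun w => t w.1) (fun w x => h w.1 x) ?_
        rintro c' hc1 hc2 ⟨w, hw⟩
        have q1 : ∀ w, (∃ h : c (a w), c' ⟨a w, h⟩) ↔ ∃ h : c w, c' ⟨w, h⟩ := by
          intro w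
          constructor
          · rintro ⟨e1, e2⟩
            exact ⟨(ha w).mp e1, (hc1 ⟨w, (ha w).mp e1⟩).mp e2⟩
          · rintro ⟨e1, e2⟩
            exact ⟨(ha w).mpr e1, (hc1 ⟨w, e1⟩).mpr e2⟩
        have q2 : ∀ w, (∃ h : c (b w), c' ⟨b w, h⟩) ↔ ∃ h : c w, c' ⟨w, h⟩ := by
          intro w
          constructor
          · rintro ⟨e1, e2⟩
            exact ⟨(hb w).mp e1, (hc2 ⟨w, (hb w).mp e1⟩).mp e2⟩
          · rintro ⟨e1, e2⟩
            exact ⟨(hb w).mpr e1, (hc2 ⟨w, e1⟩).mpr e2⟩
        obtain ⟨w', x, ⟨hw', hcw'⟩, hx⟩ :=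
          hs (fun w => ∃ h : c w, c' ⟨w, h⟩) q1 q2 ⟨w.1, w.2, hw⟩
        exact ⟨⟨w', hw'⟩, x, hcw', hx⟩
      · refine ih (Nat.card {w // ¬ c w}) (by omega) {w // ¬ c w} (res a _ ha') (res b _ hb') rfl
          (by omega) (fun w => s w.1) (fun w => t w.1) (fun w x => h w.1 x) ?_
        rintro c' hc1 hc2 ⟨w, hw⟩
        have q1 : ∀ w, (∃ h : ¬ c (a w), c' ⟨a w, h⟩) ↔ ∃ h : ¬ c w, c' ⟨w, h⟩ := by
          intro w
          constructor
          · rintro ⟨e1, e2⟩
            exact ⟨(ha' w).mp e1, (hc1 ⟨w, (ha' w).mp e1⟩).mp e2⟩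
          · rintro ⟨e1, e2⟩
            exact ⟨(ha' w).mpr e1, (hc1 ⟨w, e1⟩).mpr e2⟩
        have q2 : ∀ w, (∃ h : ¬ c (b w), c' ⟨b w, h⟩) ↔ ∃ h : ¬ c w, c' ⟨w, h⟩ := by
          intro w
          constructor
          · rintro ⟨e1, e2⟩
            exact ⟨(hb' w).mp e1, (hc2 ⟨w, (hb' w).mp e1⟩).mp e2⟩
          · rintro ⟨e1, e2⟩
            exact ⟨(hb' w).mpr e1, (hc2 ⟨w, e1⟩).mpr e2⟩
        obtain ⟨w', x, ⟨hw', hcw'⟩, hx⟩ :=
          hs (fun w => ∃ h : ¬ c w, c' ⟨w, h⟩) q1 q2 ⟨w.1, w.2, hw⟩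
        exact ⟨⟨w', hw'⟩, x, hcw', hx⟩

theorem euler_false [LinearOrder X] [Finite W] (a b : Perm W)
    (hχ : Nat.card W < Nat.card (Cyc a) + Nat.card (Cyc b) + Nat.card (Cyc (a⁻¹ * b)))
    (s t : W → X ≃o X) (h : ∀ w x, s (a w) x ≤ t (b w) ((t w).symm (s w x)))
    (hs : ∀ c : W → Prop, (∀ w, c (a w) ↔ c w) → (∀ w, c (b w) ↔ c w) → (∃ w, c w) →
      ∃ w x, c w ∧ s (a w) x < t (b w) ((t w).symm (s w x))) : False :=
  euler_false_aux _ W a b rfl hχ s t h hs

end

end Pool.Agent.Helper29.TP
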