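import Mathlib

/-!
The lemma on planar hypermaps: if the inequality `s (a w) * (s w)⁻¹ ≤ t (b w) * (t w)⁻¹` holds
for all elements of a planar hypermap, then equality holds everywhere.
-/

set_option autoImplicit false

namespace Pool.Agent.Helper29.TP

open Equiv Equiv.Perm

universe u v

/-- The cycles of a permutation (fixed points included). -/
abbrev Cyc {W : Type u} (p : Perm W) : Type u := Quotient (SameCycle.setoid p)

/-- The cycle of an element. -/
def cyc {W : Type u} (p : Perm W) (w : W) : Cyc p := Quotient.mk (SameCycle.setoid p) w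

lemma cyc_eq {W : Type u} (p : Perm W) {w w' : W} : cyc p w = cyc p w' ↔ p.SameCycle w w' :=
  Quotient.eq (r := SameCycle.setoid p)

lemma inv_ap {W : Type u} (p : Perm W) (w : W) : p⁻¹ (p w) = w := p.symm_apply_apply w

lemma ap_inv {W : Type u} (p : Perm W) (w : W) : p (p⁻¹ w) = w := p.apply_symm_apply w

lemma cyc_apply {W : Type u} (p : Perm W) (w : W) : cyc p (p w) = cyc p w :=
  (cyc_eq p).mpr (sameCycle_apply_left.mpr (SameCycle.refl p w))

lemma cyc_surj {W : Type u} (p : Perm W) (c : Cyc p) : ∃ w, cyc p w = c := by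
  induction c using Quotient.inductionOn with
  | h w => exact ⟨w, rfl⟩

/-- The group generated by the two permutations is transitive. -/
def Trans {W : Type u} (a b : Perm W) : Prop :=
  ∀ c : W → Prop, (∀ w, c (a w) ↔ c w) → (∀ w, c (b w) ↔ c w) → ∀ w w', c w → c w'

section

variable {W : Type u} {X : Type v} (a b : Perm W) (s t : W → X ≃ X)

/-- The labels: cycles of `a` and of `b`. -/
abbrev Lab := Cyc a ⊕ Cyc b

/-- The first end of a cell. -/
def eA (w : W) : Lab a b := Sum.inl (cyc a w)

/-- The second end of a cell. -/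
def eB (w : W) : Lab a b := Sum.inr (cyc b w)

lemma lab_cases (v : Lab a b) : ∃ w, v = eA a b w ∨ v = eB a b w := by
  rcases v with v | v
  · obtain ⟨w, hw⟩ := cyc_surj a v
    exact ⟨w, Or.inl (by rw [eA, hw])⟩
  · obtain ⟨w, hw⟩ := cyc_surj b v
    exact ⟨w, Or.inr (by rw [eB, hw])⟩

variable {a b}

lemma exists_cell (htr : Trans a b) (U : Lab a b → Prop) (v₀ v₁ : Lab a b) (h0 : U v₀)
    (h1 : ¬ U v₁) : ∃ w, (U (eA a b w) ∧ ¬ U (eB a b w)) ∨ (U (eB a b w) ∧ ¬ U (eA a b w)) := by
  by_contra hn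
  push Not at hn
  have key : ∀ w, U (eA a b w) ↔ U (eB a b w) := fun w => ⟨(hn w).1, (hn w).2⟩
  have hA : ∀ w, U (eA a b (a w)) ↔ U (eA a b w) := fun w => by
    rw [eA, cyc_apply, ← eA]
  have hB : ∀ w, U (eA a b (b w)) ↔ U (eA a b w) := fun w => by
    rw [key, key, eB, cyc_apply, ← eB]
  have hall := htr (fun w => U (eA a b w)) hA hB
  obtain ⟨w, hw⟩ := lab_cases a b v₀
  obtain ⟨w', hw'⟩ := lab_cases a b v₁
  have e0 : U (eA a b w) := by
    rcases hw with rfl | rfl
    · exact h0
    · exact (key w).mpr h0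
  have e1 : ¬ U (eA a b w') := by
    rcases hw' with rfl | rfl
    · exact h1
    · exact fun h => h1 ((key w').mp h)
  exact e1 (hall w w' e0)

/-- A spanning tree of the graph of labels, and labels with equality on the tree. -/
lemma exists_tree [Finite W] (htr : Trans a b) (v₀ : Lab a b) (x₀ : X) (n : ℕ)
    (hn : n + 1 ≤ Nat.card (Lab a b)) :
    ∃ (U : Finset (Lab a b)) (T : Finset W) (val : Lab a b → X), v₀ ∈ U ∧ val v₀ = x₀ ∧
      U.card = n + 1 ∧ T.card = n ∧
      (∀ w ∈ T, eA a b w ∈ U ∧ eB a b w ∈ U ∧ s w (val (eA a b w)) = t w (val (eB a b w))) ∧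
      (∀ c : Lab a b → ℚ, (∀ w ∈ T, c (eA a b w) = c (eB a b w)) → ∀ v ∈ U, c v = c v₀) := by
  classical
  have := Fintype.ofFinite (Lab a b)
  induction n with
  | zero =>
    refine ⟨{v₀}, ∅, fun _ => x₀, by simp, rfl, by simp, by simp, by simp, ?_⟩
    intro c _ v hv
    rw [Finset.mem_singleton.mp hv]
  | succ n ih =>
    obtain ⟨U, T, val, h0, hv, hU, hT, h1, h2⟩ := ih (by omega)
    have hne : U ≠ Finset.univ := by
      rintro rfl
      rw [Finset.card_univ, ← Nat.card_eq_fintype_card] at hU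
      omega
    obtain ⟨v₁, hv1⟩ : ∃ v₁, v₁ ∉ U := by
      by_contra hn'
      push Not at hn'
      exact hne (Finset.eq_univ_iff_forall.mpr hn')
    obtain ⟨w, hw | hw⟩ := exists_cell htr (fun v => v ∈ U) v₀ v₁ h0 hv1
    · have hwT : w ∉ T := fun h => hw.2 (h1 w h).2.1
      refine ⟨insert (eB a b w) U, insert w T,
        Function.update val (eB a b w) ((t w).symm (s w (val (eA a b w)))),
        Finset.mem_insert_of_mem h0, ?_, ?_, ?_, ?_, ?_⟩
      · rw [Function.update_of_ne]
        · exact hv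
        · rintro rfl
          exact hw.2 h0
      · rw [Finset.card_insert_of_notMem hw.2, hU]
      · rw [Finset.card_insert_of_notMem hwT, hT]
      · intro w' hw'
        rcases Finset.mem_insert.mp hw' with rfl | hw'
        · refine ⟨Finset.mem_insert_of_mem hw.1, Finset.mem_insert_self _ _, ?_⟩
          rw [Function.update_self, Function.update_of_ne, Equiv.apply_symm_apply]
          intro h
          exact hw.2 (h ▸ hw.1)
        · obtain ⟨e1, e2, e3⟩ := h1 w' hw'
          refine ⟨Finset.mem_insert_of_mem e1, Finset.mem_insert_of_mem e2, ?_⟩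
          rw [Function.update_of_ne, Function.update_of_ne]
          · exact e3
          · intro h
            exact hw.2 (h ▸ e2)
          · intro h
            exact hw.2 (h ▸ e1)
      · intro c hc v hv'
        have hU' := h2 c fun w' hw' => hc w' (Finset.mem_insert_of_mem hw')
        rcases Finset.mem_insert.mp hv' with rfl | hv'
        · rw [← hc w (Finset.mem_insert_self _ _)]
          exact hU' _ hw.1
        · exact hU' v hv'
    · have hwT : w ∉ T := fun h => hw.2 (h1 w h).1
      refine ⟨insert (eA a b w) U, insert w T,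
        Function.update val (eA a b w) ((s w).symm (t w (val (eB a b w)))),
        Finset.mem_insert_of_mem h0, ?_, ?_, ?_, ?_, ?_⟩
      · rw [Function.update_of_ne]
        · exact hv
        · rintro rfl
          exact hw.2 h0
      · rw [Finset.card_insert_of_notMem hw.2, hU]
      · rw [Finset.card_insert_of_notMem hwT, hT]
      · intro w' hw'
        rcases Finset.mem_insert.mp hw' with rfl | hw'
        · refine ⟨Finset.mem_insert_self _ _, Finset.mem_insert_of_mem hw.1, ?_⟩
          rw [Function.update_self, Function.update_of_ne, Equiv.apply_symm_apply]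
          intro h
          exact hw.2 (h ▸ hw.1)
        · obtain ⟨e1, e2, e3⟩ := h1 w' hw'
          refine ⟨Finset.mem_insert_of_mem e1, Finset.mem_insert_of_mem e2, ?_⟩
          rw [Function.update_of_ne, Function.update_of_ne]
          · exact e3
          · intro h
            exact hw.2 (h ▸ e2)
          · intro h
            exact hw.2 (h ▸ e1)
      · intro c hc v hv'
        have hU' := h2 c fun w' hw' => hc w' (Finset.mem_insert_of_mem hw')
        rcases Finset.mem_insert.mp hv' with rfl | hv'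
        · rw [hc w (Finset.mem_insert_self _ _)]
          exact hU' _ hw.1
        · exact hU' v hv'

/-- The times: cycles of `a⁻¹ * b`.  The end of a cell. -/
def sP (a b : Perm W) (w : W) : Cyc (a⁻¹ * b) := cyc (a⁻¹ * b) w

/-- The start of a cell. -/
def sM (a b : Perm W) (w : W) : Cyc (a⁻¹ * b) := cyc (a⁻¹ * b) (b⁻¹ w)

lemma sM_b (a b : Perm W) (w : W) : sM a b (b w) = sP a b w := by
  rw [sM, sP, inv_ap]

lemma sM_a (a b : Perm W) (w : W) : sM a b (a w) = sP a b w := by
  rw [sM, sP, ← cyc_apply (a⁻¹ * b) (b⁻¹ (a w)), Perm.mul_apply, ap_inv, inv_ap]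

open Classical in
/-- The boundary. -/
noncomputable def mB (a b : Perm W) : Matrix (Cyc (a⁻¹ * b)) W ℚ :=
  fun c w => (if sP a b w = c then 1 else 0) - (if sM a b w = c then 1 else 0)

open Classical in
/-- The coboundary. -/
noncomputable def mD (a b : Perm W) : Matrix W (Lab a b) ℚ :=
  fun w v => (if eB a b w = v then 1 else 0) - (if eA a b w = v then 1 else 0)

section

variable [Fintype W]

open Classical in
noncomputable instance (p : Perm W) : Fintype (Cyc p) := Fintype.ofFinite _

lemma mD_mulVec (c : Lab a b → ℚ) (w : W) :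
    (mD a b).mulVec c w = c (eB a b w) - c (eA a b w) := by
  classical
  simp [mD, Matrix.mulVec, dotProduct, sub_mul, Finset.sum_sub_distrib, -Fintype.sum_sum_type]

open Classical in
lemma mB_mulVec (f : W → ℚ) (c : Cyc (a⁻¹ * b)) :
    (mB a b).mulVec f c = ∑ w, ((if sP a b w = c then f w else 0) -
      (if sM a b w = c then f w else 0)) := by
  classical
  simp only [mB, Matrix.mulVec, dotProduct, sub_mul, ite_mul, one_mul, zero_mul]

lemma mBT_mulVec (g : Cyc (a⁻¹ * b) → ℚ) (w : W) :
    (mB a b).transpose.mulVec g w = g (sP a b w) - g (sM a b w) := by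
  classical
  simp [mB, Matrix.mulVec, dotProduct, sub_mul, Finset.sum_sub_distrib]

lemma mB_mD (c : Lab a b → ℚ) : (mB a b).mulVec ((mD a b).mulVec c) = 0 := by
  classical
  ext k
  rw [mB_mulVec]
  simp only [mD_mulVec, Finset.sum_sub_distrib, Pi.zero_apply]
  rw [sub_eq_zero]
  have e1 : ∑ w, (if sM a b w = k then c (eB a b w) - c (eA a b w) else 0) =
      ∑ w, (if sP a b w = k then c (eB a b w) - c (eA a b (b w)) else 0) := by
    rw [← Equiv.sum_comp b]
    refine Finset.sum_congr rfl fun w _ => ?_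
    rw [sM_b]
    have : eB a b (b w) = eB a b w := by rw [eB, eB, cyc_apply]
    rw [this]
  have e2 : ∑ w, (if sP a b w = k then c (eA a b (b w)) else 0) =
      ∑ w, (if sP a b w = k then c (eA a b w) else 0) := by
    rw [← Equiv.sum_comp (a⁻¹ * b) (fun w => if sP a b w = k then c (eA a b w) else 0)]
    refine Finset.sum_congr rfl fun w _ => ?_
    have h1 : sP a b ((a⁻¹ * b) w) = sP a b w := by rw [sP, sP, cyc_apply]
    have h2 : eA a b ((a⁻¹ * b) w) = eA a b (b w) := by
      rw [Perm.mul_apply, eA, eA, ← cyc_apply a (a⁻¹ (b w)), ap_inv]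
    rw [h1, h2]
  rw [e1]
  have split : ∀ F G : W → ℚ, ∑ w, (if sP a b w = k then F w - G w else 0) =
      ∑ w, (if sP a b w = k then F w else 0) - ∑ w, (if sP a b w = k then G w else 0) := by
    intro F G
    rw [← Finset.sum_sub_distrib]
    refine Finset.sum_congr rfl fun w _ => ?_
    split_ifs
    · rfl
    · ring
  rw [split, split, e2]

lemma ker_mD (htr : Trans a b) : Module.finrank ℚ (LinearMap.ker (mD a b).mulVecLin) ≤ 1 := by
  classical
  refine finrank_le_one (⟨fun _ => 1, ?_⟩ : LinearMap.ker (mD a b).mulVecLin) ?_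
  · rw [LinearMap.mem_ker, Matrix.mulVecLin_apply]
    ext w
    rw [mD_mulVec]
    simp
  · rintro ⟨c, hc⟩
    rw [LinearMap.mem_ker, Matrix.mulVecLin_apply] at hc
    have h1 : ∀ w, c (eB a b w) = c (eA a b w) := fun w => by
      have := congrFun hc w
      rw [mD_mulVec, Pi.zero_apply] at this
      linarith
    by_cases hW : Nonempty (Lab a b)
    · obtain ⟨v₀⟩ := hW
      refine ⟨c v₀, ?_⟩
      apply Subtype.ext
      ext v
      change c v₀ * 1 = c v
      rw [mul_one]
      by_contra hne
      obtain ⟨w, hw | hw⟩ := exists_cell htr (fun v => c v₀ = c v) v₀ v rfl hne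
      · exact hw.2 (hw.1.trans (h1 w).symm)
      · exact hw.2 (hw.1.trans (h1 w))
    · refine ⟨0, ?_⟩
      apply Subtype.ext
      ext v
      exact absurd ⟨v⟩ hW

lemma ker_mBT (htr : Trans a b) :
    Module.finrank ℚ (LinearMap.ker (mB a b).transpose.mulVecLin) ≤ 1 := by
  classical
  refine finrank_le_one (⟨fun _ => 1, ?_⟩ : LinearMap.ker (mB a b).transpose.mulVecLin) ?_
  · rw [LinearMap.mem_ker, Matrix.mulVecLin_apply]
    ext w
    rw [mBT_mulVec]
    simp
  · rintro ⟨g, hg⟩
    rw [LinearMap.mem_ker, Matrix.mulVecLin_apply] at hg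
    have h1 : ∀ w, g (sP a b w) = g (sM a b w) := fun w => by
      have := congrFun hg w
      rw [mBT_mulVec, Pi.zero_apply] at this
      linarith
    by_cases hW : Nonempty W
    · obtain ⟨w₀⟩ := hW
      have h2 : ∀ w, g (sP a b (a w)) = g (sP a b w) := fun w => by rw [h1, sM_a]
      have h3 : ∀ w, g (sP a b (b w)) = g (sP a b w) := fun w => by rw [h1, sM_b]
      have h4 := htr (fun w => g (sP a b w₀) = g (sP a b w)) (fun w => by rw [h2])
        (fun w => by rw [h3]) w₀
      refine ⟨g (sP a b w₀), ?_⟩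
      apply Subtype.ext
      ext k
      obtain ⟨w, rfl⟩ := cyc_surj _ k
      change g (sP a b w₀) * 1 = g (sP a b w)
      rw [mul_one]
      exact h4 w rfl
    · refine ⟨0, ?_⟩
      apply Subtype.ext
      ext k
      obtain ⟨w, rfl⟩ := cyc_surj _ k
      exact absurd ⟨w⟩ hW

/-- In a planar hypermap every circulation is a coboundary. -/
lemma circ (htr : Trans a b)
    (hg : Nat.card W + 2 ≤ Nat.card (Cyc a) + Nat.card (Cyc b) + Nat.card (Cyc (a⁻¹ * b)))
    (f : W → ℚ) (hf : (mB a b).mulVec f = 0) : ∃ c : Lab a b → ℚ, (mD a b).mulVec c = f := by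
  classical
  have hle : LinearMap.range (mD a b).mulVecLin ≤ LinearMap.ker (mB a b).mulVecLin := by
    rintro _ ⟨c, rfl⟩
    rw [LinearMap.mem_ker, Matrix.mulVecLin_apply, Matrix.mulVecLin_apply, mB_mD]
  have h1 := LinearMap.finrank_range_add_finrank_ker (mD a b).mulVecLin
  have h2 := LinearMap.finrank_range_add_finrank_ker (mB a b).mulVecLin
  have h3 := LinearMap.finrank_range_add_finrank_ker (mB a b).transpose.mulVecLin
  have h4 : Module.finrank ℚ (LinearMap.range (mB a b).transpose.mulVecLin) =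
      Module.finrank ℚ (LinearMap.range (mB a b).mulVecLin) := Matrix.rank_transpose (mB a b)
  have h5 := ker_mD htr
  have h6 := ker_mBT htr
  rw [Module.finrank_fintype_fun_eq_card] at h1 h2 h3
  rw [Fintype.card_sum] at h1
  simp only [← Nat.card_eq_fintype_card] at h1 h2 h3
  have h7 : LinearMap.range (mD a b).mulVecLin = LinearMap.ker (mB a b).mulVecLin :=
    Submodule.eq_of_le_of_finrank_le hle (by omega)
  have h8 : f ∈ LinearMap.range (mD a b).mulVecLin := by
    rw [h7, LinearMap.mem_ker, Matrix.mulVecLin_apply, hf]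
  obtain ⟨c, hc⟩ := h8
  exact ⟨c, hc⟩

/-- Euler's inequality. -/
lemma euler_le (htr : Trans a b) :
    Nat.card (Cyc a) + Nat.card (Cyc b) + Nat.card (Cyc (a⁻¹ * b)) ≤ Nat.card W + 2 := by
  classical
  have hle : LinearMap.range (mD a b).mulVecLin ≤ LinearMap.ker (mB a b).mulVecLin := by
    rintro _ ⟨c, rfl⟩
    rw [LinearMap.mem_ker, Matrix.mulVecLin_apply, Matrix.mulVecLin_apply, mB_mD]
  have h1 := LinearMap.finrank_range_add_finrank_ker (mD a b).mulVecLin
  have h2 := LinearMap.finrank_range_add_finrank_ker (mB a b).mulVecLin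
  have h3 := LinearMap.finrank_range_add_finrank_ker (mB a b).transpose.mulVecLin
  have h4 : Module.finrank ℚ (LinearMap.range (mB a b).transpose.mulVecLin) =
      Module.finrank ℚ (LinearMap.range (mB a b).mulVecLin) := Matrix.rank_transpose (mB a b)
  have h5 := ker_mD htr
  have h6 := ker_mBT htr
  rw [Module.finrank_fintype_fun_eq_card] at h1 h2 h3
  rw [Fintype.card_sum] at h1
  simp only [← Nat.card_eq_fintype_card] at h1 h2 h3
  have h7 := Submodule.finrank_mono hle
  omega

/-- A set of times with an injection to cells between these times which are not in the tree. -/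
lemma no_inj (htr : Trans a b)
    (hg : Nat.card W + 2 ≤ Nat.card (Cyc a) + Nat.card (Cyc b) + Nat.card (Cyc (a⁻¹ * b)))
    (T : Finset W) (v₀ : Lab a b)
    (hT : ∀ c : Lab a b → ℚ, (∀ w ∈ T, c (eA a b w) = c (eB a b w)) → ∀ v, c v = c v₀)
    (S : Cyc (a⁻¹ * b) → Prop) (k₀ : Cyc (a⁻¹ * b)) (hk₀ : S k₀) (ν : {k // S k} → W)
    (hν : Function.Injective ν) (hνT : ∀ k, ν k ∉ T) (h1 : ∀ k, S (sP a b (ν k)))
    (h2 : ∀ k, S (sM a b (ν k))) : False := by
  classical
  let ext : ({k // S k} → ℚ) →ₗ[ℚ] (W → ℚ) :=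
    { toFun := fun g w => ∑ d, if ν d = w then g d else 0
      map_add' := fun g g' => by
        ext w
        simp only [Pi.add_apply]
        rw [← Finset.sum_add_distrib]
        refine Finset.sum_congr rfl fun d _ => ?_
        split_ifs <;> simp
      map_smul' := fun r g => by
        ext w
        simp only [Pi.smul_apply, smul_eq_mul, RingHom.id_apply]
        rw [Finset.mul_sum]
        refine Finset.sum_congr rfl fun d _ => ?_
        split_ifs <;> simp }
  have hext : ∀ g w, ext g w = ∑ d, if ν d = w then g d else 0 := fun g w => rfl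
  have hextν : ∀ g d, ext g (ν d) = g d := fun g d => by
    rw [hext, Finset.sum_eq_single d]
    · rw [if_pos rfl]
    · intro d' _ hd'
      rw [if_neg (fun h => hd' (hν h))]
    · intro h
      exact absurd (Finset.mem_univ _) h
  have hext0 : ∀ g w, (∀ d, ν d ≠ w) → ext g w = 0 := fun g w hw => by
    rw [hext]
    exact Finset.sum_eq_zero fun d _ => if_neg (hw d)
  have hout : ∀ g k, ¬ S k → (mB a b).mulVec (ext g) k = 0 := by
    intro g k hk
    rw [mB_mulVec]
    refine Finset.sum_eq_zero fun w _ => ?_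
    by_cases hw : ∃ d, ν d = w
    · obtain ⟨d, rfl⟩ := hw
      have n1 : sP a b (ν d) ≠ k := fun h => hk (by rw [← h]; exact h1 d)
      have n2 : sM a b (ν d) ≠ k := fun h => hk (by rw [← h]; exact h2 d)
      rw [if_neg n1, if_neg n2, sub_zero]
    · rw [hext0 g w (fun d hd => hw ⟨d, hd⟩)]
      simp
  have hsum : ∀ f : W → ℚ, ∑ k, (mB a b).mulVec f k = 0 := by
    intro f
    simp only [mB_mulVec]
    rw [Finset.sum_comm]
    refine Finset.sum_eq_zero fun w _ => ?_
    rw [Finset.sum_sub_distrib, Finset.sum_ite_eq, Finset.sum_ite_eq]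
    simp
  let L : ({k // S k} → ℚ) →ₗ[ℚ] ({k // S k} → ℚ) :=
    (LinearMap.funLeft ℚ ℚ (fun k : {k // S k} => k.1)) ∘ₗ (mB a b).mulVecLin ∘ₗ ext
  have hL : ∀ g k, L g k = (mB a b).mulVec (ext g) k.1 := fun g k => rfl
  have hLsum : ∀ g, ∑ k, L g k = 0 := by
    intro g
    have e := hsum (ext g)
    rw [← Finset.sum_filter_add_sum_filter_not Finset.univ S] at e
    rw [Finset.sum_eq_zero (s := Finset.univ.filter fun k => ¬ S k)
      (fun k hk => hout g k (Finset.mem_filter.mp hk).2), add_zero] at e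
    rw [← e]
    refine (Finset.sum_subtype (Finset.univ.filter S) (fun k => by simp)
      (fun k => (mB a b).mulVec (ext g) k)).symm
  have hns : ¬ Function.Surjective L := by
    intro hs
    obtain ⟨g, hg'⟩ := hs (fun k => if k = ⟨k₀, hk₀⟩ then 1 else 0)
    have e := hLsum g
    rw [hg', Finset.sum_ite_eq', if_pos (Finset.mem_univ _)] at e
    exact one_ne_zero e
  have hni : ¬ Function.Injective L := fun h => hns (LinearMap.injective_iff_surjective.mp h)
  apply hni
  rw [injective_iff_map_eq_zero]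
  intro g hgz
  have hz : (mB a b).mulVec (ext g) = 0 := by
    ext k
    by_cases hk : S k
    · exact congrFun hgz ⟨k, hk⟩
    · exact hout g k hk
  obtain ⟨c, hc⟩ := circ htr hg _ hz
  have hcT : ∀ w ∈ T, c (eA a b w) = c (eB a b w) := by
    intro w hw
    have e := congrFun hc w
    rw [mD_mulVec, hext0 g w (fun d hd => hνT d (hd ▸ hw))] at e
    linarith
  have hconst := hT c hcT
  ext d
  rw [← hextν g d, ← hc, mD_mulVec, hconst (eB a b (ν d)), hconst (eA a b (ν d)), sub_self]
  rfl

end

/-- **The lemma on planar hypermaps.** -/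
theorem planar_point [Finite W] [LinearOrder X] (htr : Trans a b)
    (hg : Nat.card W + 2 ≤ Nat.card (Cyc a) + Nat.card (Cyc b) + Nat.card (Cyc (a⁻¹ * b)))
    (s t : W → X ≃o X) (h : ∀ w x, s (a w) x ≤ t (b w) ((t w).symm (s w x))) (w₀ : W) (x₀ : X) :
    ∃ x y : W → X, x w₀ = x₀ ∧ (∀ w, x (a w) = x w) ∧ (∀ w, y (b w) = y w) ∧
      (∀ w, s w (x w) = t w (y w)) ∧ ∀ w, s (a w) (x w) = t (b w) (y w) := by
  classical
  have := Fintype.ofFinite W
  have hcard : Nat.card (Lab a b) = Nat.card (Cyc a) + Nat.card (Cyc b) := Nat.card_sum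
  have hpos : 0 < Nat.card (Lab a b) := by
    have : Nonempty (Lab a b) := ⟨eA a b w₀⟩
    exact Nat.card_pos
  obtain ⟨U, T, val, -, hv, hU, -, hT, hc⟩ := exists_tree (fun w => (s w).toEquiv)
    (fun w => (t w).toEquiv) htr (eA a b w₀) x₀ (Nat.card (Lab a b) - 1) (by omega)
  have hUu : U = Finset.univ := by
    rw [← Finset.card_eq_iff_eq_univ, hU, ← Nat.card_eq_fintype_card]
    omega
  subst hUu
  have hc' := fun c hcc v => hc c hcc v (Finset.mem_univ v)
  set P : W → X := fun w => s w (val (eA a b w)) with hP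
  set Q : W → X := fun w => t w (val (eB a b w)) with hQ
  have hPQT : ∀ w ∈ T, P w = Q w := fun w hw => (hT w hw).2.2
  have va : ∀ w, val (eA a b (a w)) = val (eA a b w) := fun w => by rw [eA, eA, cyc_apply]
  have vb : ∀ w, val (eB a b (b w)) = val (eB a b w) := fun w => by rw [eB, eB, cyc_apply]
  have rel : ∀ w, P (a w) ≤ t (b w) ((t w).symm (P w)) := fun w => by
    change s (a w) (val (eA a b (a w))) ≤ _
    rw [va]
    exact h w _
  have Qb : ∀ w, Q (b w) = t (b w) ((t w).symm (Q w)) := fun w => by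
    change t (b w) (val (eB a b (b w))) = _
    rw [vb]
    change _ = t (b w) ((t w).symm (t w _))
    rw [OrderIso.symm_apply_apply]
  have rel1 : ∀ w, P w ≤ Q w → P (a w) ≤ Q (b w) := fun w hw => by
    rw [Qb]
    exact (rel w).trans ((t (b w)).monotone ((t w).symm.monotone hw))
  have rel2 : ∀ w, P w < Q w → P (a w) < Q (b w) := fun w hw => by
    rw [Qb]
    exact (rel w).trans_lt ((t (b w)).strictMono ((t w).symm.strictMono hw))
  set S : Cyc (a⁻¹ * b) → Prop := fun k => ∃ w, sP a b w = k ∧ (P (a w) < Q (b w) ∨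
    Q (b w) < P (b w)) with hS
  have hθ : ∀ w, a ((a⁻¹ * b) w) = b w := fun w => by rw [Perm.mul_apply, ap_inv]
  have neg : ∀ k, S k → ∃ w, (sP a b w = k ∧ Q (b w) < P (a w)) ∨
      (sM a b w = k ∧ P w < Q w) := by
    rintro k ⟨w, hw, hs⟩
    by_contra hn
    push Not at hn
    have n1 : ∀ w', sP a b w' = k → P (a w') ≤ Q (b w') := fun w' h' => (hn w').1 h'
    have n2 : ∀ w', sP a b w' = k → Q (b w') ≤ P (b w') := fun w' h' =>
      (hn (b w')).2 (by rw [sM_b]; exact h')
    have st : ∀ (n : ℕ) w', sP a b w' = k → P (a w') ≤ P (a (((a⁻¹ * b) ^ n) w')) ∧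
        sP a b (((a⁻¹ * b) ^ n) w') = k := by
      intro n
      induction n with
      | zero => intro w' h'; exact ⟨le_rfl, h'⟩
      | succ n ih =>
        intro w' h'
        obtain ⟨e1, e2⟩ := ih w' h'
        rw [pow_succ', Perm.mul_apply]
        refine ⟨e1.trans ?_, ?_⟩
        · rw [hθ]
          exact (n1 _ e2).trans (n2 _ e2)
        · rw [sP, cyc_apply]
          exact e2
    obtain ⟨e1, -⟩ := st (orderOf (a⁻¹ * b) - 1) ((a⁻¹ * b) w) (by rw [sP, cyc_apply]; exact hw)
    have e2 : ((a⁻¹ * b) ^ (orderOf (a⁻¹ * b) - 1)) ((a⁻¹ * b) w) = w := by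
      rw [← Perm.mul_apply, ← pow_succ, Nat.sub_add_cancel (orderOf_pos _), pow_orderOf_eq_one]
      rfl
    rw [e2, hθ] at e1
    rcases hs with hs | hs
    · exact absurd (hs.trans_le ((n2 w hw).trans e1)) (lt_irrefl _)
    · exact absurd ((n1 w hw).trans_lt (hs.trans_le e1)) (lt_irrefl _)
  have hnone : ∀ k, ¬ S k := by
    intro k₀ hk₀
    choose ν hν using fun k : {k // S k} => neg k.1 k.2
    have pos1 : ∀ w, Q (b w) < P (a w) → Q w < P w := fun w hw => by
      by_contra hn
      exact absurd (rel1 w (not_lt.mp hn)) (not_le.mpr hw)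
    refine no_inj htr hg T (eA a b w₀) hc' S k₀ hk₀ ν ?_ ?_ ?_ ?_
    · intro k k' hkk
      apply Subtype.ext
      have e := hν k
      have e' := hν k'
      rw [← hkk] at e'
      rcases e with ⟨e1, e2⟩ | ⟨e1, e2⟩ <;> rcases e' with ⟨e3, e4⟩ | ⟨e3, e4⟩
      · exact e1.symm.trans e3
      · exact absurd (pos1 _ e2) (not_lt.mpr e4.le)
      · exact absurd (pos1 _ e4) (not_lt.mpr e2.le)
      · exact e1.symm.trans e3
    · intro k hk
      have e0 := hPQT _ hk
      rcases hν k with ⟨-, e2⟩ | ⟨-, e2⟩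
      · exact absurd (pos1 _ e2) (not_lt.mpr e0.le)
      · exact absurd e2 (not_lt.mpr e0.ge)
    · intro k
      rcases hν k with ⟨e1, e2⟩ | ⟨e1, e2⟩
      · rw [e1]
        exact k.2
      · exact ⟨ν k, rfl, Or.inl (rel2 _ e2)⟩
    · intro k
      rcases hν k with ⟨e1, e2⟩ | ⟨e1, e2⟩
      · refine ⟨b⁻¹ (ν k), rfl, Or.inr ?_⟩
        rw [ap_inv]
        exact pos1 _ e2
      · rw [e1]
        exact k.2
  have f1 : ∀ w, Q (b w) ≤ P (a w) := fun w => not_lt.mp fun hl => hnone _ ⟨w, rfl, Or.inl hl⟩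
  have f2 : ∀ w, P w ≤ Q w := fun w => not_lt.mp fun hl => hnone _ ⟨b⁻¹ w, rfl, Or.inr (by
    rw [ap_inv]
    exact hl)⟩
  have f3 : ∀ w, P w = Q w := fun w => by
    refine le_antisymm (f2 w) (not_lt.mp fun hl => ?_)
    exact absurd (rel2 w hl) (not_lt.mpr (f1 w))
  refine ⟨fun w => val (eA a b w), fun w => val (eB a b w), hv, va, vb, f3, fun w => ?_⟩
  have e := le_antisymm (rel1 w (f2 w)) (f1 w)
  change s (a w) (val (eA a b (a w))) = t (b w) (val (eB a b (b w))) at e
  rwa [va, vb] at e

/-- If the inequality holds for all elements of a planar hypermap, then equality holds. -/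
theorem planar [Finite W] [LinearOrder X] (htr : Trans a b)
    (hg : Nat.card W + 2 ≤ Nat.card (Cyc a) + Nat.card (Cyc b) + Nat.card (Cyc (a⁻¹ * b)))
    (s t : W → X ≃o X) (h : ∀ w x, s (a w) x ≤ t (b w) ((t w).symm (s w x))) (w : W) (x : X) :
    s (a w) x = t (b w) ((t w).symm (s w x)) := by
  obtain ⟨f, g, h0, -, -, he, he'⟩ := planar_point htr hg s t h w x
  rw [← h0, he w, OrderIso.symm_apply_apply]
  exact he' w

end

end Pool.Agent.Helper29.TP
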